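import Mathlib

/-!
# Separator exponent versus expansion exponent: `c* ≥ 1`

For `k ≥ 2` consider all subgraphs of the graphs obtained from the complete graph (with loops and
in both directions) on `r ^ (k - 1)` vertices by replacing each edge by a path with `2 r` inner
vertices. They have balanced separators of order `O(n ^ (1 - 1 / k))`, and `K_D` with
`D = r ^ (k - 1)` is a depth-`r` minor.
-/

set_option autoImplicit false

namespace Pool.Agent.Results.MP_2f3b43_co.LowerBoundOne

open Function Filter Asymptotics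

/-- `C` is a monotone class of finite graphs: closed under isomorphism and subgraphs. -/
def IsMonotone (C : (n : ℕ) → SimpleGraph (Fin n) → Prop) : Prop :=
  ∀ (n m : ℕ) (G : SimpleGraph (Fin n)) (H : SimpleGraph (Fin m)) (f : H →g G),
    Injective f → C n G → C m H

/-- `S` is a balanced separator of the `n`-vertex graph `G`: each component of `G - S` has at most
`2 n / 3` vertices. -/
def IsBalSep {n : ℕ} (G : SimpleGraph (Fin n)) (S : Finset (Fin n)) : Prop :=
  ∀ c : (G.induce ((S : Set (Fin n))ᶜ)).ConnectedComponent, 3 * c.supp.ncard ≤ 2 * n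

/-- the `n`-vertex graphs of `C` have balanced separators of order `O(n ^ (1 - δ))` -/
def HasSeps (C : (n : ℕ) → SimpleGraph (Fin n) → Prop) (δ : ℝ) : Prop :=
  ∃ K : ℝ, ∀ (n : ℕ) (G : SimpleGraph (Fin n)), C n G →
    ∃ S : Finset (Fin n), IsBalSep G S ∧ (S.card : ℝ) ≤ K * (n : ℝ) ^ (1 - δ)

/-- `H` is a depth-`r` minor of `G`: there are pairwise disjoint sets `S u` of vertices of `G`, each
with a centre from which all its vertices are reached by walks of length at most `r` inside `S u`,
such that for each edge `u v` of `H` some edge of `G` joins `S u` and `S v`. -/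
def DepthMinor (r : ℕ) {U V : Type} (H : SimpleGraph U) (G : SimpleGraph V) : Prop :=
  ∃ S : U → Set V, (∀ u v, u ≠ v → Disjoint (S u) (S v)) ∧
    (∀ u, ∃ c ∈ S u, ∀ x ∈ S u, ∃ p : G.Walk c x, p.length ≤ r ∧ ∀ y ∈ p.support, y ∈ S u) ∧
    ∀ u v, H.Adj u v → ∃ x ∈ S u, ∃ y ∈ S v, G.Adj x y

/-- `C` has expansion bounded by `f`: each depth-`r` minor of a graph in `C` has average degree at
most `f r`. -/
def ExpBounded (C : (n : ℕ) → SimpleGraph (Fin n) → Prop) (f : ℕ → ℝ) : Prop :=
  ∀ (r m n : ℕ) (H : SimpleGraph (Fin m)) (G : SimpleGraph (Fin n)), C n G → DepthMinor r H G →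
    2 * (H.edgeSet.ncard : ℝ) ≤ f r * m

/-- the set `A` of the problem -/
def A : Set ℝ :=
  {c | 0 < c ∧ ∀ δ : ℝ, 0 < δ → δ ≤ 1 → ∀ C : (n : ℕ) → SimpleGraph (Fin n) → Prop,
    IsMonotone C → HasSeps C δ →
      ∃ f : ℕ → ℝ, (f =O[atTop] fun r : ℕ => (r : ℝ) ^ (c / δ)) ∧ ExpBounded C f}

/-! ### components and labels -/

theorem comp_le {n : ℕ} (G : SimpleGraph (Fin n)) (S : Finset (Fin n)) {Λ : Type}
    (lab : Fin n → Λ) (h1 : ∀ u v, u ∉ S → v ∉ S → G.Adj u v → lab u = lab v)
    (h2 : ∀ l, 2 * {v : Fin n | v ∉ S ∧ lab v = l}.ncard ≤ n) : IsBalSep G S := by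
  intro c
  have key : ∀ (x y : ((S : Set (Fin n))ᶜ : Set (Fin n)))
      (_ : (G.induce ((S : Set (Fin n))ᶜ)).Walk x y), lab x = lab y := by
    intro x y p
    induction p with
    | nil => rfl
    | @cons a b d hab _ ih =>
      rw [← ih]
      exact h1 _ _ (fun h => a.2 (Finset.mem_coe.mpr h)) (fun h => b.2 (Finset.mem_coe.mpr h)) hab
  obtain ⟨x, rfl⟩ := c.exists_rep
  have hsub : Subtype.val '' ((G.induce ((S : Set (Fin n))ᶜ)).connectedComponentMk x).supp ⊆
      {v : Fin n | v ∉ S ∧ lab v = lab x} := by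
    rintro _ ⟨y, hy, rfl⟩
    refine ⟨fun h => y.2 (Finset.mem_coe.mpr h), ?_⟩
    rw [SimpleGraph.ConnectedComponent.mem_supp_iff, SimpleGraph.ConnectedComponent.eq] at hy
    obtain ⟨p⟩ := hy
    exact key _ _ p
  have h3 := Set.ncard_le_ncard hsub (Set.toFinite _)
  rw [Set.ncard_image_of_injective _ Subtype.val_injective] at h3
  have h4 := h2 (lab x)
  have h5 : ((G.induce ((S : Set (Fin n))ᶜ)).connectedComponentMk x).supp.ncard ≤
    {v : Fin n | v ∉ S ∧ lab v = lab x}.ncard := h3
  change 3 * ((G.induce ((S : Set (Fin n))ᶜ)).connectedComponentMk x).supp.ncard ≤ 2 * n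
  omega

/-! ### the subdivided graphs -/

/-- vertices: `D` branch vertices and `m` inner vertices for each ordered pair of them -/
abbrev W (D m : ℕ) : Type := Fin D ⊕ ((Fin D × Fin D) × Fin m)

/-- adjacency -/
def wadj {D m : ℕ} : W D m → W D m → Prop
  | .inl _, .inl _ => False
  | .inl a, .inr (e, i) => (e.1 = a ∧ i.val = 0) ∨ (e.2 = a ∧ i.val + 1 = m)
  | .inr (e, i), .inl a => (e.1 = a ∧ i.val = 0) ∨ (e.2 = a ∧ i.val + 1 = m)
  | .inr (e, i), .inr (e', j) => e = e' ∧ (i.val + 1 = j.val ∨ j.val + 1 = i.val)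

/-- the subdivided graph -/
def Sub (D m : ℕ) : SimpleGraph (W D m) where
  Adj := wadj
  symm := ⟨by
    rintro (a | ⟨e, i⟩) (b | ⟨e', j⟩) h
    · exact h
    · exact h
    · exact h
    · exact ⟨h.1.symm, h.2.symm⟩⟩
  loopless := ⟨by
    rintro (a | ⟨e, i⟩) h
    · exact h
    · have := h.2; omega⟩

/-- the class -/
def Cl (k : ℕ) : (n : ℕ) → SimpleGraph (Fin n) → Prop := fun _ G =>
  ∃ r : ℕ, 1 ≤ r ∧ ∃ f : G →g Sub (r ^ (k - 1)) (2 * r), Injective f

theorem Cl_mono (k : ℕ) : IsMonotone (Cl k) := by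
  rintro n m G H f hf ⟨r, hr, g, hg⟩
  exact ⟨r, hr, g.comp f, hg.comp hf⟩

/-- a threshold splitting the paths -/
theorem exists_threshold {n D m : ℕ} (f : Fin n → W D m) :
    ∃ (e0 : Option (Fin D × Fin D)) (i0 : ℕ), ∀ e : Fin D × Fin D,
      (some e ≠ e0 → 2 * {v : Fin n | ∃ i, f v = .inr (e, i)}.ncard ≤ n) ∧
      (some e = e0 → 2 * {v : Fin n | ∃ i, f v = .inr (e, i) ∧ i.val < i0}.ncard ≤ n ∧
        2 * {v : Fin n | ∃ i, f v = .inr (e, i) ∧ i0 < i.val}.ncard ≤ n) := by
  classical
  by_cases hbig : ∃ e : Fin D × Fin D, n < 2 * {v : Fin n | ∃ i, f v = .inr (e, i)}.ncard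
  swap
  · push Not at hbig
    exact ⟨none, 0, fun e => ⟨fun _ => hbig e, fun h => by simp at h⟩⟩
  obtain ⟨e0, he0⟩ := hbig
  -- least threshold with at least half below or at it
  have hex : ∃ i, n ≤ 2 * {v : Fin n | ∃ j, f v = .inr (e0, j) ∧ j.val ≤ i}.ncard := by
    refine ⟨m, ?_⟩
    have : {v : Fin n | ∃ i, f v = .inr (e0, i)} ⊆ {v : Fin n | ∃ j, f v = .inr (e0, j) ∧ j.val ≤ m} := by
      rintro v ⟨i, hi⟩
      exact ⟨i, hi, i.2.le⟩
    have := Set.ncard_le_ncard this (Set.toFinite _)
    omega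
  refine ⟨some e0, Nat.find hex, fun e => ⟨fun hne => ?_, fun he => ?_⟩⟩
  · have hne' : e ≠ e0 := fun h => hne (by rw [h])
    have hdisj : Disjoint {v : Fin n | ∃ i, f v = .inr (e, i)} {v : Fin n | ∃ i, f v = .inr (e0, i)} := by
      rw [Set.disjoint_left]
      rintro v ⟨i, hi⟩ ⟨j, hj⟩
      rw [hi] at hj
      simp only [Sum.inr.injEq, Prod.mk.injEq] at hj
      exact hne' hj.1
    have h1 := Set.ncard_union_eq hdisj (Set.toFinite _) (Set.toFinite _)
    have h2 := Set.ncard_le_ncard (Set.subset_univ ({v : Fin n | ∃ i, f v = .inr (e, i)} ∪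
      {v : Fin n | ∃ i, f v = .inr (e0, i)})) (Set.toFinite _)
    rw [Set.ncard_univ, Nat.card_eq_fintype_card, Fintype.card_fin] at h2
    omega
  · have he' : e = e0 := Option.some.inj he
    subst he'
    have hspec := Nat.find_spec hex
    constructor
    · by_cases h0 : Nat.find hex = 0
      · have : {v : Fin n | ∃ i, f v = .inr (e, i) ∧ i.val < Nat.find hex} = ∅ := by
          ext v
          rw [h0]
          simp
        rw [this, Set.ncard_empty]
        omega
      · have hmin := Nat.find_min hex (m := Nat.find hex - 1) (by omega)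
        have : {v : Fin n | ∃ i, f v = .inr (e, i) ∧ i.val < Nat.find hex} =
            {v : Fin n | ∃ j, f v = .inr (e, j) ∧ j.val ≤ Nat.find hex - 1} := by
          ext v
          simp only [Set.mem_ofPred_eq]
          constructor
          · rintro ⟨i, h1, h2⟩; exact ⟨i, h1, by omega⟩
          · rintro ⟨i, h1, h2⟩; exact ⟨i, h1, by omega⟩
        rw [this]
        omega
    · have hdisj : Disjoint {v : Fin n | ∃ j, f v = .inr (e, j) ∧ j.val ≤ Nat.find hex}
          {v : Fin n | ∃ i, f v = .inr (e, i) ∧ Nat.find hex < i.val} := by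
        rw [Set.disjoint_left]
        rintro v ⟨i, hi, hi'⟩ ⟨j, hj, hj'⟩
        rw [hi] at hj
        simp only [Sum.inr.injEq, Prod.mk.injEq, true_and] at hj
        rw [hj] at hi'
        omega
      have h1 := Set.ncard_union_eq hdisj (Set.toFinite _) (Set.toFinite _)
      have h2 := Set.ncard_le_ncard (Set.subset_univ ({v : Fin n | ∃ j, f v = .inr (e, j) ∧
        j.val ≤ Nat.find hex} ∪ {v : Fin n | ∃ i, f v = .inr (e, i) ∧ Nat.find hex < i.val}))
        (Set.toFinite _)
      rw [Set.ncard_univ, Nat.card_eq_fintype_card, Fintype.card_fin] at h2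
      omega

/-- the side of the threshold, for inner vertices of the path `e0` -/
def side {D m : ℕ} (e0 : Option (Fin D × Fin D)) (i0 : ℕ) (e : Fin D × Fin D) (i : Fin m) : Bool :=
  decide (some e = e0 ∧ i.val < i0)

/-- the classes given by path and side are small after removing the threshold vertex -/
theorem small_side {n D m : ℕ} (f : Fin n → W D m) (S : Finset (Fin n))
    (e0 : Option (Fin D × Fin D)) (i0 : ℕ)
    (hth : ∀ e : Fin D × Fin D,
      (some e ≠ e0 → 2 * {v : Fin n | ∃ i, f v = .inr (e, i)}.ncard ≤ n) ∧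
      (some e = e0 → 2 * {v : Fin n | ∃ i, f v = .inr (e, i) ∧ i.val < i0}.ncard ≤ n ∧
        2 * {v : Fin n | ∃ i, f v = .inr (e, i) ∧ i0 < i.val}.ncard ≤ n))
    (hS : ∀ v e i, f v = .inr (e, i) → some e = e0 → i.val = i0 → v ∈ S)
    (e : Fin D × Fin D) (b : Bool) (T : Set (Fin n))
    (hT : ∀ v ∈ T, v ∉ S ∧ ∃ i, f v = .inr (e, i) ∧ side e0 i0 e i = b) :
    2 * T.ncard ≤ n := by
  by_cases he : some e = e0
  · obtain ⟨h1, h2⟩ := (hth e).2 he
    cases b
    · have : T ⊆ {v : Fin n | ∃ i, f v = .inr (e, i) ∧ i0 < i.val} := by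
        intro v hv
        obtain ⟨hvS, i, hi, hs⟩ := hT v hv
        refine ⟨i, hi, ?_⟩
        simp only [side, decide_eq_false_iff_not, not_and, not_lt] at hs
        have h3 := hs he
        have h4 : i.val ≠ i0 := fun h => hvS (hS v e i hi he h)
        omega
      have := Set.ncard_le_ncard this (Set.toFinite _)
      omega
    · have : T ⊆ {v : Fin n | ∃ i, f v = .inr (e, i) ∧ i.val < i0} := by
        intro v hv
        obtain ⟨hvS, i, hi, hs⟩ := hT v hv
        refine ⟨i, hi, ?_⟩
        simp only [side, decide_eq_true_eq] at hs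
        exact hs.2
      have := Set.ncard_le_ncard this (Set.toFinite _)
      omega
  · have : T ⊆ {v : Fin n | ∃ i, f v = .inr (e, i)} := by
      intro v hv
      obtain ⟨hvS, i, hi, hs⟩ := hT v hv
      exact ⟨i, hi⟩
    have h3 := Set.ncard_le_ncard this (Set.toFinite _)
    have h4 := (hth e).1 he
    omega

theorem side_eq {D m : ℕ} (e0 : Option (Fin D × Fin D)) (i0 : ℕ) (e : Fin D × Fin D) (i j : Fin m)
    (hi : some e = e0 → i.val ≠ i0) (hj : some e = e0 → j.val ≠ i0)
    (h : i.val + 1 = j.val ∨ j.val + 1 = i.val) : side e0 i0 e i = side e0 i0 e j := by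
  unfold side
  congr 1
  apply propext
  constructor
  · rintro ⟨h1, h2⟩
    have := hi h1
    have := hj h1
    exact ⟨h1, by omega⟩
  · rintro ⟨h1, h2⟩
    have := hi h1
    have := hj h1
    exact ⟨h1, by omega⟩

theorem card_branch {n D m : ℕ} (f : Fin n → W D m) (hf : Injective f) (S1 : Finset (Fin n))
    (hS : ∀ v ∈ S1, ∃ a, f v = .inl a) : S1.card ≤ D := by
  have h1 : S1.card ≤ ((Finset.univ : Finset (Fin D)).map ⟨Sum.inl, Sum.inl_injective⟩ :
      Finset (W D m)).card := by
    apply Finset.card_le_card_of_injOn f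
    · intro v hv
      obtain ⟨a, ha⟩ := hS v hv
      simp [ha]
    · exact hf.injOn
  simpa using h1

theorem card_threshold {n D m : ℕ} (f : Fin n → W D m) (hf : Injective f)
    (e0 : Option (Fin D × Fin D)) (i0 : ℕ) (S2 : Finset (Fin n))
    (hS : ∀ v ∈ S2, ∃ e i, f v = .inr (e, i) ∧ some e = e0 ∧ i.val = i0) : S2.card ≤ 1 := by
  rw [Finset.card_le_one]
  intro v hv w hw
  obtain ⟨e, i, h1, h2, h3⟩ := hS v hv
  obtain ⟨e', i', h1', h2', h3'⟩ := hS w hw
  apply hf
  rw [h1, h1']
  have he : e = e' := Option.some.inj (h2.trans h2'.symm)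
  have hi : i = i' := Fin.ext (h3.trans h3'.symm)
  rw [he, hi]

/-- many vertices: remove the branch vertices -/
theorem case_large {n D m : ℕ} (G : SimpleGraph (Fin n)) (f : G →g Sub D m) (hf : Injective f) :
    ∃ S : Finset (Fin n), IsBalSep G S ∧ S.card ≤ D + 1 := by
  classical
  obtain ⟨e0, i0, hth⟩ := exists_threshold f
  let S1 : Finset (Fin n) := Finset.univ.filter (fun v => ∃ a, f v = .inl a)
  let S2 : Finset (Fin n) :=
    Finset.univ.filter (fun v => ∃ e i, f v = .inr (e, i) ∧ some e = e0 ∧ i.val = i0)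
  have c1 : S1.card ≤ D := card_branch f hf S1 (fun v hv => by simpa [S1] using hv)
  have c2 : S2.card ≤ 1 := card_threshold f hf e0 i0 S2 (fun v hv => by
    simpa only [S2, Finset.mem_filter, Finset.mem_univ, true_and] using hv)
  have m1 : ∀ v a, f v = .inl a → v ∈ S1 ∪ S2 := fun v a h =>
    Finset.mem_union_left _ (Finset.mem_filter.mpr ⟨Finset.mem_univ _, a, h⟩)
  have m2 : ∀ v e i, f v = .inr (e, i) → some e = e0 → i.val = i0 → v ∈ S1 ∪ S2 :=
    fun v e i h h' h'' =>
    Finset.mem_union_right _ (Finset.mem_filter.mpr ⟨Finset.mem_univ _, e, i, h, h', h''⟩)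
  refine ⟨S1 ∪ S2, ?_, (Finset.card_union_le _ _).trans (by omega)⟩
  apply comp_le G (S1 ∪ S2) (fun v => match f v with
    | .inl _ => none
    | .inr (e, i) => some (e, side e0 i0 e i))
  · intro u v hu hv huv
    have hadj : wadj (f u) (f v) := f.map_rel huv
    rcases hfu : f u with a | ⟨e, i⟩
    · exact absurd (m1 u a hfu) hu
    rcases hfv : f v with a | ⟨e', j⟩
    · exact absurd (m1 v a hfv) hv
    rw [hfu, hfv] at hadj
    obtain ⟨rfl, hij⟩ := hadj
    simp only
    rw [side_eq e0 i0 e i j (fun h h' => hu (m2 u e i hfu h h'))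
      (fun h h' => hv (m2 v e j hfv h h')) hij]
  · intro l
    rcases l with _ | ⟨e, b⟩
    · have : {v : Fin n | v ∉ S1 ∪ S2 ∧ (match f v with
        | .inl _ => none
        | .inr (e, i) => some (e, side e0 i0 e i)) = none} = ∅ := by
        ext v
        simp only [Set.mem_ofPred_eq, Set.mem_empty_iff_false, iff_false, not_and]
        intro hv h
        rcases hfv : f v with a | ⟨e, i⟩
        · exact hv (m1 v a hfv)
        · rw [hfv] at h; simp at h
      rw [this, Set.ncard_empty]
      omega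
    · apply small_side f (S1 ∪ S2) e0 i0 hth m2 e b
      rintro v ⟨hvS, hv⟩
      refine ⟨hvS, ?_⟩
      rcases hfv : f v with a | ⟨e', i⟩
      · exact absurd (m1 v a hfv) hvS
      · rw [hfv] at hv
        simp only [Option.some.injEq, Prod.mk.injEq] at hv
        obtain ⟨rfl, rfl⟩ := hv
        exact ⟨i, rfl, rfl⟩

/-- few vertices: cut each path all of whose inner vertices are present -/
theorem case_small {n D m : ℕ} (G : SimpleGraph (Fin n)) (f : G →g Sub D m) (hf : Injective f) :
    ∃ (S : Finset (Fin n)) (q : ℕ), IsBalSep G S ∧ S.card ≤ q + 2 ∧ q * m ≤ n := by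
  classical
  obtain ⟨e0, i0, hth⟩ := exists_threshold f
  let full : Fin D × Fin D → Prop := fun e => ∀ j : Fin m, ∃ v, f v = .inr (e, j)
  let S1 : Finset (Fin n) :=
    Finset.univ.filter (fun v => ∃ e i, f v = .inr (e, i) ∧ i.val = 0 ∧ full e)
  let S2 : Finset (Fin n) :=
    Finset.univ.filter (fun v => ∃ e i, f v = .inr (e, i) ∧ some e = e0 ∧ i.val = i0)
  let pres : Fin D × Fin D → ℕ → Prop := fun e j =>
    ∃ (i : Fin m) (v : Fin n), i.val = j ∧ f v = .inr (e, i) ∧ v ∉ S1
  let L : Fin D × Fin D → ℕ → Option (Fin D) := fun e i =>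
    if ∀ j, j ≤ i → pres e j then some e.1
    else if ∀ j, i ≤ j → j < m → pres e j then some e.2 else none
  let base : Fin n → Option (Fin D) := fun v => match f v with
    | .inl a => some a
    | .inr (e, i) => L e i.val
  obtain ⟨as, has⟩ : ∃ as : Option (Fin D), ∀ a, some a ≠ as →
      2 * {v : Fin n | base v = some a}.ncard ≤ n := by
    by_cases hbig : ∃ a : Fin D, n < 2 * {v : Fin n | base v = some a}.ncard
    · obtain ⟨a0, ha0⟩ := hbig
      refine ⟨some a0, fun a hne => ?_⟩
      have hne' : a ≠ a0 := fun h => hne (by rw [h])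
      have hdisj : Disjoint {v : Fin n | base v = some a} {v : Fin n | base v = some a0} := by
        rw [Set.disjoint_left]
        intro v hv hv'
        exact hne' (Option.some.inj (hv.symm.trans hv'))
      have h1 := Set.ncard_union_eq hdisj (Set.toFinite _) (Set.toFinite _)
      have h2 := Set.ncard_le_ncard (Set.subset_univ ({v : Fin n | base v = some a} ∪
        {v : Fin n | base v = some a0})) (Set.toFinite _)
      rw [Set.ncard_univ, Nat.card_eq_fintype_card, Fintype.card_fin] at h2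
      omega
    · push Not at hbig
      exact ⟨none, fun a _ => hbig a⟩
  let S3 : Finset (Fin n) := Finset.univ.filter (fun v => ∃ a, f v = .inl a ∧ some a = as)
  -- sizes
  have c2 : S2.card ≤ 1 := card_threshold f hf e0 i0 S2 (fun v hv => by
    simpa only [S2, Finset.mem_filter, Finset.mem_univ, true_and] using hv)
  have c3 : S3.card ≤ 1 := by
    rw [Finset.card_le_one]
    intro v hv w hw
    simp only [S3, Finset.mem_filter, Finset.mem_univ, true_and] at hv hw
    obtain ⟨a, h1, h2⟩ := hv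
    obtain ⟨b, h1', h2'⟩ := hw
    apply hf
    rw [h1, h1', Option.some.inj (h2.trans h2'.symm)]
  have c1 : S1.card * m ≤ n := by
    have hch : ∀ v ∈ S1, ∃ e i, f v = .inr (e, i) ∧ i.val = 0 ∧ full e := by
      intro v hv
      simpa only [S1, Finset.mem_filter, Finset.mem_univ, true_and] using hv
    choose E I hE hI hF using hch
    have hg : ∀ (v : Fin n) (hv : v ∈ S1) (j : Fin m), ∃ w, f w = .inr (E v hv, j) :=
      fun v hv j => hF v hv j
    choose g hg using hg
    have : Fintype.card (S1 × Fin m) ≤ Fintype.card (Fin n) := by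
      apply Fintype.card_le_of_injective (fun p : S1 × Fin m => g p.1.1 p.1.2 p.2)
      rintro ⟨⟨v, hv⟩, j⟩ ⟨⟨w, hw⟩, j'⟩ h
      have h1 := hg v hv j
      have h2 := hg w hw j'
      simp only at h
      rw [h, h2] at h1
      simp only [Sum.inr.injEq, Prod.mk.injEq] at h1
      obtain ⟨h3, h4⟩ := h1
      have hvw : v = w := by
        apply hf
        rw [hE v hv, hE w hw, h3]
        have : I v hv = I w hw := Fin.ext ((hI v hv).trans (hI w hw).symm)
        rw [this]
      subst hvw
      rw [h4]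
    rwa [Fintype.card_prod, Fintype.card_coe, Fintype.card_fin, Fintype.card_fin] at this
  -- membership
  have m1 : ∀ v, v ∉ S1 ∪ (S2 ∪ S3) → v ∉ S1 := fun v h h' => h (Finset.mem_union_left _ h')
  have m2 : ∀ v e i, f v = .inr (e, i) → some e = e0 → i.val = i0 → v ∈ S1 ∪ (S2 ∪ S3) :=
    fun v e i h h' h'' => Finset.mem_union_right _ (Finset.mem_union_left _
      (Finset.mem_filter.mpr ⟨Finset.mem_univ _, e, i, h, h', h''⟩))
  have m3 : ∀ v a, f v = .inl a → some a = as → v ∈ S1 ∪ (S2 ∪ S3) :=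
    fun v a h h' => Finset.mem_union_right _ (Finset.mem_union_right _
      (Finset.mem_filter.mpr ⟨Finset.mem_univ _, a, h, h'⟩))
  -- the labels along an edge
  have L0 : ∀ v e i, f v = .inr (e, i) → v ∉ S1 → i.val = 0 → L e i.val = some e.1 := by
    intro v e i hv hvS hi
    simp only [L]
    rw [if_pos]
    intro j hj
    exact ⟨i, v, by omega, hv, hvS⟩
  have Lm : ∀ v e i, f v = .inr (e, i) → v ∉ S1 → i.val + 1 = m → L e i.val = some e.2 := by
    intro v e i hv hvS hi
    simp only [L]
    rw [if_neg, if_pos]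
    · intro j h1 h2
      exact ⟨i, v, by omega, hv, hvS⟩
    · intro hall
      have hfull : full e := by
        intro j
        obtain ⟨i', w, h1, h2, _⟩ := hall j.val (by have := j.2; omega)
        have : i' = j := Fin.ext h1
        rw [this] at h2
        exact ⟨w, h2⟩
      obtain ⟨i', w, h1, h2, h3⟩ := hall 0 (Nat.zero_le _)
      exact h3 (Finset.mem_filter.mpr ⟨Finset.mem_univ _, e, i', h2, h1, hfull⟩)
  have Lstep : ∀ v w e (i j : Fin m), f v = .inr (e, i) → f w = .inr (e, j) → v ∉ S1 → w ∉ S1 →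
      i.val + 1 = j.val → L e i.val = L e j.val := by
    intro v w e i j hv hw hvS hwS hij
    have k1 : (∀ l, l ≤ i.val → pres e l) ↔ (∀ l, l ≤ j.val → pres e l) := by
      constructor
      · intro h l hl
        by_cases hlj : l = j.val
        · exact ⟨j, w, hlj.symm, hw, hwS⟩
        · exact h l (by omega)
      · intro h l hl
        exact h l (by omega)
    have k2 : (∀ l, i.val ≤ l → l < m → pres e l) ↔ (∀ l, j.val ≤ l → l < m → pres e l) := by
      constructor
      · intro h l h1 h2
        exact h l (by omega) h2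
      · intro h l h1 h2
        by_cases hli : l = i.val
        · exact ⟨i, v, hli.symm, hv, hvS⟩
        · exact h l (by omega) h2
    simp only [L, k1, k2]
  refine ⟨S1 ∪ (S2 ∪ S3), S1.card, ?_, ?_, c1⟩
  swap
  · have := Finset.card_union_le S1 (S2 ∪ S3)
    have := Finset.card_union_le S2 S3
    omega
  let lab : Fin n → Fin D ⊕ ((Fin D × Fin D) × Bool) := fun v => match f v with
    | .inl a => .inl a
    | .inr (e, i) => match L e i.val with
      | none => .inr (e, side e0 i0 e i)
      | some a => if some a = as then .inr (e, side e0 i0 e i) else .inl a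
  have lab_inl : ∀ v a, f v = .inl a → lab v = .inl a := by
    intro v a h; simp only [lab, h]
  have lab_inr : ∀ v e i a, f v = .inr (e, i) → L e i.val = some a → some a ≠ as →
      lab v = .inl a := by
    intro v e i a h h' h''
    simp only [lab, h, h', if_neg h'']
  have lab_eq : ∀ v w e (i j : Fin m), f v = .inr (e, i) → f w = .inr (e, j) →
      L e i.val = L e j.val → side e0 i0 e i = side e0 i0 e j → lab v = lab w := by
    intro v w e i j h1 h2 h3 h4
    simp only [lab, h1, h2, h3, h4]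
  apply comp_le G _ lab
  · intro u v hu hv huv
    have hadj : wadj (f u) (f v) := f.map_rel huv
    have mixed : ∀ u v a e i, u ∉ S1 ∪ (S2 ∪ S3) → v ∉ S1 ∪ (S2 ∪ S3) → f u = .inl a →
        f v = .inr (e, i) → ((e.1 = a ∧ i.val = 0) ∨ (e.2 = a ∧ i.val + 1 = m)) →
        lab u = lab v := by
      intro u v a e i hu hv hfu hfv h
      have hne : some a ≠ as := fun h => hu (m3 u a hfu h)
      rw [lab_inl u a hfu]
      rcases h with ⟨rfl, h⟩ | ⟨rfl, h⟩
      · exact (lab_inr v e i _ hfv (L0 v e i hfv (m1 v hv) h) hne).symm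
      · exact (lab_inr v e i _ hfv (Lm v e i hfv (m1 v hv) h) hne).symm
    rcases hfu : f u with a | ⟨e, i⟩
    · rcases hfv : f v with b | ⟨e', j⟩
      · rw [hfu, hfv] at hadj
        exact absurd hadj id
      · rw [hfu, hfv] at hadj
        exact mixed u v a e' j hu hv hfu hfv hadj
    · rcases hfv : f v with b | ⟨e', j⟩
      · rw [hfu, hfv] at hadj
        exact (mixed v u b e i hv hu hfv hfu hadj).symm
      · rw [hfu, hfv] at hadj
        obtain ⟨rfl, hij⟩ := hadj
        apply lab_eq u v e i j hfu hfv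
        · rcases hij with hij | hij
          · exact Lstep u v e i j hfu hfv (m1 u hu) (m1 v hv) hij
          · exact (Lstep v u e j i hfv hfu (m1 v hv) (m1 u hu) hij).symm
        · exact side_eq e0 i0 e i j (fun h h' => hu (m2 u e i hfu h h'))
            (fun h h' => hv (m2 v e j hfv h h')) hij
  · intro l
    rcases l with a | ⟨e, b⟩
    · by_cases hae : some a = as
      · have : {v : Fin n | v ∉ S1 ∪ (S2 ∪ S3) ∧ lab v = .inl a} = ∅ := by
          ext v
          simp only [Set.mem_ofPred_eq, Set.mem_empty_iff_false, iff_false, not_and]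
          intro hv h
          rcases hfv : f v with b | ⟨e, i⟩
          · rw [lab_inl v b hfv] at h
            have : b = a := by simpa using h
            exact hv (m3 v b hfv (by rw [this]; exact hae))
          · simp only [lab, hfv] at h
            rcases hL : L e i.val with _ | c
            · rw [hL] at h; simp at h
            · rw [hL] at h
              simp only at h
              by_cases hc : some c = as
              · rw [if_pos hc] at h; simp at h
              · rw [if_neg hc] at h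
                have : c = a := by simpa using h
                exact hc (by rw [this]; exact hae)
        rw [this, Set.ncard_empty]
        omega
      · have hsub : {v : Fin n | v ∉ S1 ∪ (S2 ∪ S3) ∧ lab v = .inl a} ⊆
            {v : Fin n | base v = some a} := by
          rintro v ⟨hv, h⟩
          show base v = some a
          rcases hfv : f v with b | ⟨e, i⟩
          · rw [lab_inl v b hfv] at h
            have : b = a := by simpa using h
            simp only [base, hfv, this]
          · simp only [lab, hfv] at h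
            rcases hL : L e i.val with _ | c
            · rw [hL] at h; simp at h
            · rw [hL] at h
              simp only at h
              by_cases hc : some c = as
              · rw [if_pos hc] at h; simp at h
              · rw [if_neg hc] at h
                have : c = a := by simpa using h
                simp only [base, hfv, hL, this]
        have h1 := Set.ncard_le_ncard hsub (Set.toFinite _)
        have h2 := has a hae
        omega
    · apply small_side f (S1 ∪ (S2 ∪ S3)) e0 i0 hth m2 e b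
      rintro v ⟨hvS, hv⟩
      refine ⟨hvS, ?_⟩
      rcases hfv : f v with c | ⟨e', i⟩
      · rw [lab_inl v c hfv] at hv
        simp at hv
      · simp only [lab, hfv] at hv
        rcases hL : L e' i.val with _ | c
        · rw [hL] at hv
          simp only [Sum.inr.injEq, Prod.mk.injEq] at hv
          obtain ⟨rfl, rfl⟩ := hv
          exact ⟨i, rfl, rfl⟩
        · rw [hL] at hv
          simp only at hv
          by_cases hc : some c = as
          · rw [if_pos hc] at hv
            simp only [Sum.inr.injEq, Prod.mk.injEq] at hv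
            obtain ⟨rfl, rfl⟩ := hv
            exact ⟨i, rfl, rfl⟩
          · rw [if_neg hc] at hv
            simp at hv

/-- separators of the class -/
theorem Cl_seps (k : ℕ) (hk : 2 ≤ k) : HasSeps (Cl k) (1 / (k : ℝ)) := by
  refine ⟨3, fun n G hG => ?_⟩
  obtain ⟨r, hr, f, hf⟩ := hG
  have hk0 : (k : ℝ) ≠ 0 := by positivity
  have hn0 : (0 : ℝ) ≤ (n : ℝ) ^ (1 - 1 / (k : ℝ)) := by positivity
  by_cases hn : n = 0
  · subst hn
    obtain ⟨S, q, h1, -, -⟩ := case_small G f hf
    refine ⟨S, h1, ?_⟩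
    have : S.card = 0 := by
      have := Finset.card_le_univ S
      simpa using this
    rw [this, Nat.cast_zero]
    positivity
  have hn1 : 1 ≤ n := Nat.one_le_iff_ne_zero.mpr hn
  set t : ℝ := (n : ℝ) ^ (1 / (k : ℝ)) with ht
  have ht0 : 0 ≤ t := by positivity
  have ht1 : 1 ≤ t := Real.one_le_rpow (by exact_mod_cast hn1) (by positivity)
  have htk : t ^ k = n := by
    rw [ht, ← Real.rpow_natCast, ← Real.rpow_mul (by positivity), one_div_mul_cancel hk0,
      Real.rpow_one]
  have htk1 : t ^ (k - 1) = (n : ℝ) ^ (1 - 1 / (k : ℝ)) := by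
    rw [ht, ← Real.rpow_natCast, ← Real.rpow_mul (by positivity)]
    congr 1
    rw [Nat.cast_sub (by omega)]
    field_simp
    push_cast
    ring
  have hp1 : 1 ≤ t ^ (k - 1) := one_le_pow₀ ht1
  rw [← htk1]
  by_cases hcase : r ^ k ≤ n
  · obtain ⟨S, h1, h2⟩ := case_large G f hf
    refine ⟨S, h1, ?_⟩
    have hrt : (r : ℝ) ≤ t := by
      by_contra hlt
      rw [not_le] at hlt
      have h3 : t ^ k < (r : ℝ) ^ k := pow_lt_pow_left₀ hlt ht0 (by omega)
      rw [htk] at h3
      have h4 : ((r ^ k : ℕ) : ℝ) ≤ n := by exact_mod_cast hcase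
      push_cast at h4
      linarith
    have h5 : (r : ℝ) ^ (k - 1) ≤ t ^ (k - 1) := pow_le_pow_left₀ (by positivity) hrt _
    have h6 : (S.card : ℝ) ≤ (r : ℝ) ^ (k - 1) + 1 := by exact_mod_cast h2
    linarith
  · obtain ⟨S, q, h1, h2, h3⟩ := case_small G f hf
    refine ⟨S, h1, ?_⟩
    have hrt : t ≤ (r : ℝ) := by
      by_contra hlt
      rw [not_le] at hlt
      have h4 : (r : ℝ) ^ k < t ^ k := pow_lt_pow_left₀ hlt (by positivity) (by omega)
      rw [htk] at h4
      have h5 : r ^ k < n := by exact_mod_cast h4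
      omega
    have hr0 : (1 : ℝ) ≤ r := by exact_mod_cast hr
    have h4 : (q : ℝ) * (2 * r) ≤ n := by exact_mod_cast h3
    have h5 : (n : ℝ) = t * t ^ (k - 1) := by
      rw [← htk, ← pow_succ']
      congr 1
      omega
    have h6 : (n : ℝ) ≤ r * t ^ (k - 1) := by
      rw [h5]
      exact mul_le_mul_of_nonneg_right hrt (by positivity)
    have h7 : (q : ℝ) ≤ t ^ (k - 1) := by
      by_contra hlt
      rw [not_le] at hlt
      have : (r : ℝ) * t ^ (k - 1) < r * q := by
        exact mul_lt_mul_of_pos_left hlt (by linarith)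
      nlinarith
    have h8 : (S.card : ℝ) ≤ q + 2 := by exact_mod_cast h2
    linarith

/-! ### the complete graph as a shallow minor -/

theorem DepthMinor.of_iso {r : ℕ} {U V V' : Type} {H : SimpleGraph U} {G : SimpleGraph V}
    {G' : SimpleGraph V'} (φ : G ≃g G') (h : DepthMinor r H G) : DepthMinor r H G' := by
  obtain ⟨S, h1, h2, h3⟩ := h
  refine ⟨fun u => φ '' S u, ?_, ?_, ?_⟩
  · intro u v huv
    rw [Set.disjoint_image_iff φ.injective]
    exact h1 u v huv
  · intro u
    obtain ⟨c, hc, h⟩ := h2 u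
    refine ⟨φ c, ⟨c, hc, rfl⟩, ?_⟩
    rintro _ ⟨x, hx, rfl⟩
    obtain ⟨p, hp, hsup⟩ := h x hx
    refine ⟨p.map φ.toHom, ?_, ?_⟩
    · rw [SimpleGraph.Walk.length_map]; exact hp
    · intro y hy
      have hy' : y ∈ (p.map φ.toHom).support := hy
      rw [SimpleGraph.Walk.support_map, List.mem_map] at hy'
      obtain ⟨z, hz, rfl⟩ := hy'
      exact ⟨z, hsup z hz, rfl⟩
  · intro u v huv
    obtain ⟨x, hx, y, hy, hxy⟩ := h3 u v huv
    exact ⟨φ x, ⟨x, hx, rfl⟩, φ y, ⟨y, hy, rfl⟩, φ.map_adj_iff.mpr hxy⟩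

/-- the branch set of `u` -/
def BS {D : ℕ} (r : ℕ) (u : Fin D) : Set (W D (2 * r)) := fun x => match x with
  | .inl a => a = u
  | .inr (e, i) => (e.1 = u ∧ i.val < r) ∨ (e.2 = u ∧ r ≤ i.val)

theorem walk_left {D r : ℕ} (u b : Fin D) : ∀ (i : ℕ) (x : Fin (2 * r)), x.val = i → i < r →
    ∃ p : (Sub D (2 * r)).Walk (.inl u) (.inr ((u, b), x)), p.length ≤ i + 1 ∧
      ∀ y ∈ p.support, y ∈ BS r u
  | 0, x, hx, hi => by
    have hadj : (Sub D (2 * r)).Adj (.inl u) (.inr ((u, b), x)) := Or.inl ⟨rfl, hx⟩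
    refine ⟨SimpleGraph.Walk.cons hadj SimpleGraph.Walk.nil, by simp, ?_⟩
    intro y hy
    rw [SimpleGraph.Walk.support_cons, SimpleGraph.Walk.support_nil, List.mem_cons,
      List.mem_singleton] at hy
    rcases hy with rfl | rfl
    · exact rfl
    · exact Or.inl ⟨rfl, by omega⟩
  | i + 1, x, hx, hi => by
    obtain ⟨p, hp, hs⟩ := walk_left (r := r) u b i ⟨i, by omega⟩ rfl (by omega)
    have hadj : (Sub D (2 * r)).Adj (.inr ((u, b), ⟨i, by omega⟩)) (.inr ((u, b), x)) :=
      ⟨rfl, Or.inl hx.symm⟩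
    refine ⟨p.concat hadj, ?_, ?_⟩
    · rw [SimpleGraph.Walk.length_concat]; omega
    · intro y hy
      rw [SimpleGraph.Walk.support_concat, List.mem_append,
        List.mem_singleton] at hy
      rcases hy with hy | rfl
      · exact hs y hy
      · exact Or.inl ⟨rfl, by omega⟩

theorem walk_right {D r : ℕ} (u b : Fin D) : ∀ (j : ℕ) (x : Fin (2 * r)), x.val + 1 + j = 2 * r →
    j < r → ∃ p : (Sub D (2 * r)).Walk (.inl u) (.inr ((b, u), x)),
      p.length ≤ j + 1 ∧ ∀ y ∈ p.support, y ∈ BS r u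
  | 0, x, hx, hj => by
    have hadj : (Sub D (2 * r)).Adj (.inl u) (.inr ((b, u), x)) := Or.inr ⟨rfl, hx⟩
    refine ⟨SimpleGraph.Walk.cons hadj SimpleGraph.Walk.nil, by simp, ?_⟩
    intro y hy
    rw [SimpleGraph.Walk.support_cons, SimpleGraph.Walk.support_nil, List.mem_cons,
      List.mem_singleton] at hy
    rcases hy with rfl | rfl
    · exact rfl
    · exact Or.inr ⟨rfl, by omega⟩
  | j + 1, x, hx, hj => by
    obtain ⟨p, hp, hs⟩ := walk_right (r := r) u b j ⟨x.val + 1, by omega⟩ (by simp only; omega)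
      (by omega)
    have hadj : (Sub D (2 * r)).Adj (.inr ((b, u), ⟨x.val + 1, by omega⟩)) (.inr ((b, u), x)) :=
      ⟨rfl, Or.inr rfl⟩
    refine ⟨p.concat hadj, ?_, ?_⟩
    · rw [SimpleGraph.Walk.length_concat]; omega
    · intro y hy
      rw [SimpleGraph.Walk.support_concat, List.mem_append,
        List.mem_singleton] at hy
      rcases hy with hy | rfl
      · exact hs y hy
      · exact Or.inr ⟨rfl, by omega⟩

theorem minor_Sub (D r : ℕ) (hr : 1 ≤ r) :
    DepthMinor r (⊤ : SimpleGraph (Fin D)) (Sub D (2 * r)) := by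
  refine ⟨BS r, ?_, ?_, ?_⟩
  · intro u v huv
    rw [Set.disjoint_left]
    rintro (a | ⟨e, i⟩) h1 h2
    · have h1' : a = u := h1
      have h2' : a = v := h2
      exact huv (h1'.symm.trans h2')
    · have h1' : (e.1 = u ∧ i.val < r) ∨ (e.2 = u ∧ r ≤ i.val) := h1
      have h2' : (e.1 = v ∧ i.val < r) ∨ (e.2 = v ∧ r ≤ i.val) := h2
      rcases h1' with ⟨h3, h4⟩ | ⟨h3, h4⟩ <;> rcases h2' with ⟨h5, h6⟩ | ⟨h5, h6⟩
      · exact huv (h3.symm.trans h5)
      · omega
      · omega
      · exact huv (h3.symm.trans h5)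
  · intro u
    refine ⟨.inl u, rfl, ?_⟩
    rintro (a | ⟨⟨e1, e2⟩, i⟩) hx
    · have hx' : a = u := hx
      subst hx'
      exact ⟨SimpleGraph.Walk.nil, by simp, fun y hy => by
        rw [SimpleGraph.Walk.support_nil, List.mem_singleton] at hy
        rw [hy]; exact rfl⟩
    · have hx' : (e1 = u ∧ i.val < r) ∨ (e2 = u ∧ r ≤ i.val) := hx
      rcases hx' with ⟨rfl, h⟩ | ⟨rfl, h⟩
      · obtain ⟨p, hp, hs⟩ := walk_left (r := r) e1 e2 i.val i rfl h
        exact ⟨p, by omega, hs⟩
      · have hi := i.2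
        obtain ⟨p, hp, hs⟩ := walk_right (r := r) e2 e1 (2 * r - 1 - i.val) i (by omega) (by omega)
        exact ⟨p, by omega, hs⟩
  · intro u v huv
    refine ⟨.inr ((u, v), ⟨r - 1, by omega⟩), Or.inl ⟨rfl, by simp only; omega⟩,
      .inr ((u, v), ⟨r, by omega⟩), Or.inr ⟨rfl, le_rfl⟩, ⟨rfl, Or.inl ?_⟩⟩
    simp only
    omega

/-- the expansion of the class is at least `r ^ (k - 1) - 1` -/
theorem exp_ge (k : ℕ) (f : ℕ → ℝ) (hf : ExpBounded (Cl k) f) (r : ℕ) (hr : 1 ≤ r) :
    (r : ℝ) ^ (k - 1) - 1 ≤ f r := by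
  classical
  set D := r ^ (k - 1) with hD
  have hD1 : 1 ≤ D := Nat.one_le_pow _ _ hr
  let e := Fintype.equivFin (W D (2 * r))
  let G : SimpleGraph (Fin (Fintype.card (W D (2 * r)))) := (Sub D (2 * r)).comap e.symm
  let φ : G ≃g Sub D (2 * r) := SimpleGraph.Iso.comap e.symm _
  have hG : Cl k _ G := ⟨r, hr, φ.toHom, φ.injective⟩
  have hm : DepthMinor r (⊤ : SimpleGraph (Fin D)) G := (minor_Sub D r hr).of_iso φ.symm
  have h := hf r D _ ⊤ G hG hm
  have hcard : ((⊤ : SimpleGraph (Fin D)).edgeSet.ncard : ℝ) = (D : ℝ) * (D - 1) / 2 := by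
    rw [Set.ncard_eq_toFinset_card']
    have : (⊤ : SimpleGraph (Fin D)).edgeSet.toFinset = (⊤ : SimpleGraph (Fin D)).edgeFinset := rfl
    rw [this, SimpleGraph.card_edgeFinset_top_eq_card_choose_two, Fintype.card_fin,
      Nat.cast_choose_two]
  rw [hcard] at h
  have hD0 : (0 : ℝ) < D := by exact_mod_cast hD1
  have h2 : (D : ℝ) * (D - 1) ≤ D * f r := by linarith
  have h3 := le_of_mul_le_mul_left h2 hD0
  have h4 : (D : ℝ) = (r : ℝ) ^ (k - 1) := by rw [hD]; push_cast; rfl
  rw [← h4]
  exact h3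

/-- Every element of the set `A` is at least `1`; so `c* = inf A` is at least `1`. -/
theorem result : ∀ c ∈ A, 1 ≤ c := by
  rintro c ⟨hc0, hc⟩
  by_contra hlt
  rw [not_le] at hlt
  obtain ⟨k, hk⟩ := exists_nat_gt (max 2 (1 / (1 - c)))
  have hk2 : 2 < k := by
    have := lt_of_le_of_lt (le_max_left _ _) hk
    exact_mod_cast this
  have hk3 : 1 / (1 - c) < k := lt_of_le_of_lt (le_max_right _ _) hk
  have hck : c * k < k - 1 := by
    have h1 : 0 < 1 - c := by linarith
    rw [div_lt_iff₀ h1] at hk3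
    linarith
  have hkpos : (0 : ℝ) < k := by
    have : (2 : ℝ) < k := by exact_mod_cast hk2
    linarith
  obtain ⟨f, hfO, hfB⟩ := hc (1 / (k : ℝ)) (by positivity) (by
    rw [div_le_one hkpos]
    have : (2 : ℝ) < k := by exact_mod_cast hk2
    linarith) (Cl k) (Cl_mono k) (Cl_seps k (by omega))
  have hexp : c / (1 / (k : ℝ)) = c * k := by field_simp
  rw [hexp] at hfO
  have hckpos : 0 < c * k := by positivity
  -- `r ^ (k - 1)` is `O(r ^ (c k))`
  have h1 : (fun r : ℕ => (1 : ℝ)) =O[atTop] fun r : ℕ => (r : ℝ) ^ (c * k) := by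
    apply IsBigO.of_bound 1
    filter_upwards [eventually_ge_atTop 1] with r hr
    rw [norm_one, one_mul, Real.norm_of_nonneg (by positivity)]
    exact Real.one_le_rpow (by exact_mod_cast hr) hckpos.le
  have h2 : (fun r : ℕ => (r : ℝ) ^ ((k : ℝ) - 1)) =O[atTop] fun r : ℕ => (r : ℝ) ^ (c * k) := by
    have h3 : (fun r : ℕ => (r : ℝ) ^ ((k : ℝ) - 1)) =O[atTop] fun r : ℕ => ‖f r‖ + 1 := by
      apply IsBigO.of_bound 1
      filter_upwards [eventually_ge_atTop 1] with r hr
      have h4 := exp_ge k f hfB r hr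
      have h5 : (r : ℝ) ^ ((k : ℝ) - 1) = (r : ℝ) ^ (k - 1) := by
        rw [← Real.rpow_natCast, Nat.cast_sub (by omega), Nat.cast_one]
      rw [one_mul, Real.norm_of_nonneg (by positivity), h5, Real.norm_of_nonneg (by positivity)]
      have := Real.le_norm_self (f r)
      linarith
    exact h3.trans (hfO.norm_left.add h1)
  obtain ⟨K, hK⟩ := h2.bound
  have ht : Tendsto (fun r : ℕ => (r : ℝ) ^ ((k : ℝ) - 1 - c * k)) atTop atTop :=
    (tendsto_rpow_atTop (by linarith)).comp tendsto_natCast_atTop_atTop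
  obtain ⟨r, h3, h4, h5⟩ := (hK.and ((ht.eventually_gt_atTop K).and
    (eventually_ge_atTop 1))).exists
  have hr : (0 : ℝ) < r := by exact_mod_cast h5
  have h6 : (r : ℝ) ^ ((k : ℝ) - 1) = (r : ℝ) ^ ((k : ℝ) - 1 - c * k) * (r : ℝ) ^ (c * k) := by
    rw [← Real.rpow_add hr]
    congr 1
    ring
  rw [Real.norm_of_nonneg (by positivity), Real.norm_of_nonneg (by positivity), h6] at h3
  have h7 : (0 : ℝ) < (r : ℝ) ^ (c * k) := Real.rpow_pos_of_pos hr _
  have h8 := le_of_mul_le_mul_right h3 h7
  linarith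

end Pool.Agent.Results.MP_2f3b43_co.LowerBoundOne
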